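import Mathlib
import Pool.Agent.K9h9.Final2

/-!
# The Fermat-Catalan equation with two equal exponents: for large exponents `x` and `y` are
# composed almost entirely of primes congruent to `1` modulo the third exponent

Equation `x ^ p + y ^ p = z ^ q`, `p ≠ q` odd primes, `x, y, z` non-zero integers of any sign,
`gcd (x, y) = 1`, `p ∤ z`. For every `η > 0` there is `N` such that in EVERY solution with
`max (p, q) ≥ N` every divisor `D` of `x` (of `y`) with `q ∤ D φ(D)`, that is, without prime factors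
`q` and `1` modulo `q`, has a cofactor greater than
`max (|x|, |y|) ^ (1 - 1/L - (L - 1)/q - η)`, for all `2 ≤ L ≤ q`. With `L` near `√q` the exponent is
`1 - 2/√q - η`, so it tends to `1 - η` as `q → ∞`: the parts of `x` and of `y` composed of `q` and of
primes `1` modulo `q` are at least `max (|x|, |y|) ^ (1 - η)`, for all `q ≥ Q(η)` and all `p`.

Proof. Auxiliary polynomials of degree `L - 1` in `α = b / a ^ (p - 1)`, `x + y = a ^ q`, `z = a b`
(Siegel's lemma, a zero estimate with the Wronskian determinant) for `p` large in terms of `η` and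
`L`; an elementary estimate for `p` small and `q` large; linear forms in two `2`-adic logarithms for
the bound for `q`; and two solutions with the same `x, y, q` to bound `p`.
-/

set_option autoImplicit false

namespace Pool.Agent.Results.MP_509488_nt.EqualExponentsLarge

open Pool.Agent.K9h9

/-- For every `η > 0` there is `N` such that for all solutions of `x ^ p + y ^ p = z ^ q`, `p ≠ q`
odd primes with `max (p, q) ≥ N`, `x, y, z` non-zero integers, `x` and `y` coprime, `p ∤ z`, all
`2 ≤ L ≤ q` and all `D` with `q ∤ D φ(D)`: if `D` divides `x` then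
`D max (|x|, |y|) ^ (1 - 1/L - (L - 1)/q - η) < |x|`, and similarly for `y`. -/
theorem result : ∀ η : ℝ, 0 < η → ∃ N : ℕ, ∀ (x y z : ℤ) (p q : ℕ), p.Prime → q.Prime →
    p ≠ 2 → q ≠ 2 → p ≠ q → x ≠ 0 → y ≠ 0 → z ≠ 0 → IsCoprime x y → ¬ (p : ℤ) ∣ z →
    x ^ p + y ^ p = z ^ q → N ≤ max p q →
    ∀ D L : ℕ, 2 ≤ L → L ≤ q → ¬ q ∣ D * D.totient →
      ((D : ℤ) ∣ x → (D : ℝ) * (max |(x : ℝ)| |(y : ℝ)|) ^
        (1 - 1 / (L : ℝ) - ((L : ℝ) - 1) / (q : ℝ) - η) < |(x : ℝ)|) ∧
      ((D : ℤ) ∣ y → (D : ℝ) * (max |(x : ℝ)| |(y : ℝ)|) ^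
        (1 - 1 / (L : ℝ) - ((L : ℝ) - 1) / (q : ℝ) - η) < |(y : ℝ)|) := by
  intro η hη
  obtain ⟨N, hN⟩ := large_all hη
  refine ⟨N, ?_⟩
  intro x y z p q hp hq hp2 hq2 hpq hx hy hz hcop hpz heq hNpq D L hL hLq hqD
  have hsol : Sol x y z p q := ⟨hp, hq, hp2, hq2, hpq, hx, hy, hz, hcop, hpz, heq⟩
  refine ⟨?_, ?_⟩
  · intro hDx
    have h1 := hN y x z p q hsol.symm hNpq D L hL hLq hDx hqD
    rwa [max_comm] at h1
  · intro hDy
    exact hN x y z p q hsol hNpq D L hL hLq hDy hqD

end Pool.Agent.Results.MP_509488_nt.EqualExponentsLarge
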