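import Mathlib
import Pool.Agent.K9h9.XR.Div

/-!
# The Fermat-Catalan equation with two bases `x` and `|f(m)|`, `x ^ k` close to a power of `m`

Let `d, κ ≥ 1`. Let `m` be large in terms of `d` and `κ`, `x ^ k` a multiple of `m ^ P` with
`x ^ k ≤ m ^ ((1 + δ) P)` (for instance `k = P` and `x = c m` with `c ≤ m ^ δ`, or `x = 2` and `m` a power of
two), and `y = |f(m)|` for a polynomial `f` with integer coefficients, `f(0) = ± 1`,
`1 ≤ deg f ≤ d`, whose coefficients are at most `m ^ δ` (for instance a fixed polynomial `f`, or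
`y = e m ± 1` with `e ≤ m ^ δ`). Then no solution of the Fermat-Catalan equation has the bases
`x`, `y` with exponents `k`, `Q`, where `Q deg f ≤ κ P`, if the exponent `R` of the third base `z ≥ 2` has a
prime factor `l > κ (2 deg f - 1)` with the following property: `m` has a divisor `D`, `D ^ (1 + δ) ≥ m`
(for instance `D = m`), such that `l ≠ 2` and no prime factor of `D` is congruent to `1` modulo `l`, or `l = 2`
and `D` is a power of a prime not congruent to `1` modulo `4`.
All three exponents and the third base are free; nothing is assumed about the size of `z`, which is about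
`m ^ (max (P, Q deg f) / R)`.

In particular, if `m` is a large power of `2` or of `3` and `c, e ≤ m ^ δ`, then there is no solution with
the bases `c m` and `e m ± 1`, with exponents `k ≥ Q ≥ 2`, and `R ≥ 2`, `z ≥ 2`.

Proof. Replacing `m` by `D` and `f` by `f((m / D) X)` we may suppose that `D = m`.
Let `l = R`. Then `y` and `z` are congruent to `± 1` modulo `m` (`z` perhaps only modulo `m / l`),
and `z ^ l ≡ ± y ^ Q (mod m ^ P)`; an interpolation determinant for linear forms in two
`m`-adic logarithms shows that `l` is bounded in terms of `d` and `κ`. Then a Siegel lemma for the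
powers of the function `(1 + t) ^ (1 / l)` together with a zero estimate for the (binomial) approximation
forms, evaluated at `t = y ^ Q - 1`, excludes `P ≥ P₀`: the denominators of the forms cost only
`exp (O (P))`. It remains to consider finitely many triples of exponents, where the number `z` is given
by the binomial series in the base `m` (or `m / l ^ j`), which yields a contradiction to the theorem of
Mason and Stothers for large `m`.
-/

set_option autoImplicit false

namespace Pool.Agent.Results.MP_509488_nt.PolynomialBases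

/-- the Fermat-Catalan equation, in all arrangements: one of `x ^ k`, `y ^ q`, `z ^ r` is the sum of
the two others -/
def FC (x y z k q r : ℕ) : Prop :=
  x ^ k + y ^ q = z ^ r ∨ x ^ k + z ^ r = y ^ q ∨ y ^ q + z ^ r = x ^ k

theorem result (d κ : ℕ) (hκ : 1 ≤ κ) : ∃ δ : ℝ, 0 < δ ∧ ∃ N : ℕ,
    ∀ (m D x z k P Q R l : ℕ) (f : Polynomial ℤ), N ≤ m → D ∣ m → (m : ℝ) ≤ (D : ℝ) ^ (1 + δ) →
      m ^ P ∣ x ^ k → 0 < x → (x : ℝ) ^ k ≤ (m : ℝ) ^ ((1 + δ) * P) →
      1 ≤ f.natDegree → f.natDegree ≤ d → |f.coeff 0| = 1 →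
      (∀ i, |(f.coeff i : ℝ)| ≤ (m : ℝ) ^ δ) →
      2 ≤ P → 1 ≤ Q → f.natDegree * Q ≤ κ * P → 2 ≤ z → 1 ≤ R → l ∣ R → l.Prime →
      κ * (2 * f.natDegree - 1) < l →
      ((l ≠ 2 ∧ ∀ p : ℕ, p.Prime → p ∣ D → ¬ l ∣ p - 1) ∨
        (l = 2 ∧ ∃ p j : ℕ, p.Prime ∧ p % 4 ≠ 1 ∧ D = p ^ j) ∨
        ((D : ℤ) ∣ z ^ (R / l) - 1 ∨ (D : ℤ) ∣ z ^ (R / l) + 1)) →
      (2 ≤ Q ∨ l * f.natDegree < (l - 1) * P) →
      ¬ FC x (f.eval (m : ℤ)).natAbs z k Q R := by
  obtain ⟨δ, hδ, N, h⟩ := Pool.Agent.K9h9.XR.poly_mainD d κ hκ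
  refine ⟨δ, hδ, N, ?_⟩
  intro m D x z k P Q R l f hm hDm hmD hmx hx hxm hf1 hfd hf0 hfc hP hQ hfQ hz hR hlR hl hκl hor hQP heq
  obtain ⟨j, hj⟩ := hlR
  have hl0 : 0 < l := hl.pos
  have hj0 : 0 < j := by
    rcases Nat.eq_zero_or_pos j with h0 | h0
    · rw [h0, mul_zero] at hj
      omega
    · exact h0
  have hjR : R / l = j := by
    rw [hj]
    exact Nat.mul_div_cancel_left j hl0
  rw [hjR] at hor
  refine h m D (x ^ k) (z ^ j) P Q l f hm hDm hmD hmx (by positivity) (by push_cast; exact hxm) hf1 hfd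
    hf0 hfc hP hQ hfQ hQP hl hκl ?_ ?_ ?_
  · calc 2 ≤ z := hz
      _ = z ^ 1 := (pow_one z).symm
      _ ≤ z ^ j := Nat.pow_le_pow_right (by omega) hj0
  · unfold Pool.Agent.K9h9.XR.Cond
    push_cast
    exact hor
  · have h1 : (z ^ j) ^ l = z ^ R := by rw [← pow_mul, hj, mul_comm]
    unfold Pool.Agent.K9h9.XR.EqX
    rw [h1]
    exact heq

end Pool.Agent.Results.MP_509488_nt.PolynomialBases
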