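import Mathlib
import Pool.Agent.K9h9.AA.PolyU
import Pool.Agent.K9h9.AA.T1
import Pool.Agent.K9h9.AA.T3

/-!
# The Fermat-Catalan equation with bases `x` and `|f(n)|`, for a positive proportion of the integers `n`

Let `d, K ≥ 1`. For a positive proportion of the integers `n` there is no solution of the Fermat-Catalan
equation, in any arrangement, with the bases `x`, `|f(n)|`, `z` and the exponents `k`, `Q`, `R`, where

* `x ^ k` is a multiple of `n ^ P` and at most `n ^ ((1 + δ) P)`, `P ≥ 2` (for instance `k = P` and `x = c n` with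
  `c ≤ n ^ δ`);
* `f` is any polynomial with integer coefficients, `1 ≤ deg f ≤ d`, `f(0) = ± 1`, with coefficients at
  most `n ^ δ` (for instance a fixed polynomial, or `f(n) = e n ± 1` with `e ≤ n ^ δ`);
* `z ≥ 2`, and for some `κ ≤ K` we have `Q deg f ≤ κ P` and `R` has a prime factor `l > κ (2 deg f - 1)` (if
  `deg f = 1` and `Q ≤ P` this means `R ≥ 2`), and `Q ≥ 2` or `l deg f < (l - 1) P`.

All three exponents and the third base are free, and nothing is assumed about their size. In particular, for a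
positive proportion of the integers `n` none of the numbers `n ^ k + (n ± 1) ^ Q`, `± (n ^ k - (n ± 1) ^ Q)` with
`k, Q ≥ 2`, `Q ≤ K k` is a power `z ^ R`, `z ≥ 2`, whose exponent `R ≥ 2` has a prime factor larger than the
quotient `Q / k` rounded up (which is no condition if `Q ≤ k`).

Proof. Let `n = m ℓ` where `ℓ ≥ m ^ A` is a prime, `A` large, and let `l` be a prime factor of `R`. If `l` is
bounded, and `ℓ` is in a suitable residue class (not `1` modulo the odd primes in question and `3` modulo `4`),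
then the theorem handed in as `PolynomialBases` can be applied with the prime `ℓ` as its `D`. If `l` is large,
an interpolation determinant for linear forms in two logarithms is used for a divisor `D ≥ m ^ (1/C)` of `m`
without prime factors congruent to `1` modulo `l`; for most `m` there is such a divisor for all large `l` at
once, by the Brun-Titchmarsh inequality.
-/

set_option autoImplicit false

namespace Pool.Agent.Results.MP_509488_nt.PolynomialProportion

/-- the Fermat-Catalan equation, in all arrangements: one of `x ^ k`, `y ^ q`, `z ^ r` is the sum of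
the two others -/
def FC (x y z k q r : ℕ) : Prop :=
  x ^ k + y ^ q = z ^ r ∨ x ^ k + z ^ r = y ^ q ∨ y ^ q + z ^ r = x ^ k

theorem result (d K : ℕ) : ∃ δ c : ℝ, 0 < δ ∧ 0 < c ∧ ∃ N₀ : ℕ, ∀ N : ℕ, N₀ ≤ N →
    c * N ≤ ({n : ℕ | 1 ≤ n ∧ n ≤ N ∧
      ∀ (x z k P Q R l κ : ℕ) (f : Polynomial ℤ), 0 < x → n ^ P ∣ x ^ k →
        (x : ℝ) ^ k ≤ (n : ℝ) ^ ((1 + δ) * P) →
        1 ≤ f.natDegree → f.natDegree ≤ d → |f.coeff 0| = 1 →
        (∀ i, |(f.coeff i : ℝ)| ≤ (n : ℝ) ^ δ) →
        2 ≤ P → 1 ≤ Q → 1 ≤ κ → κ ≤ K → f.natDegree * Q ≤ κ * P → 2 ≤ z → 1 ≤ R → l ∣ R → l.Prime →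
        κ * (2 * f.natDegree - 1) < l →
        (2 ≤ Q ∨ l * f.natDegree < (l - 1) * P) →
        ¬ FC x (f.eval (n : ℤ)).natAbs z k Q R}.ncard : ℝ) := by
  obtain ⟨δ, hδ, c, hc, N₀, h⟩ := Pool.Agent.K9h9.AA.poly_posU Pool.Agent.K9h9.AA.t1
    Pool.Agent.K9h9.AA.t3 d K
  refine ⟨δ, c, hδ, hc, N₀, ?_⟩
  intro N hN
  refine (h N hN).trans ?_
  rw [Nat.cast_le]
  refine Set.ncard_le_ncard ?_ ((Set.finite_Iic N).subset fun n hn => hn.2.1)
  rintro n ⟨hn0, hnN, hn⟩
  refine ⟨hn0, hnN, ?_⟩
  intro x z k P Q R l κ f hx hnx hxn hf1 hfd hf0 hfc hP hQ hκ hκK hfQ hz hR hlR hl hκl hQP heq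
  obtain ⟨j, hj⟩ := hlR
  have hl0 : 0 < l := hl.pos
  have hj0 : 0 < j := by
    rcases Nat.eq_zero_or_pos j with h0 | h0
    · rw [h0, mul_zero] at hj
      omega
    · exact h0
  refine hn κ (x ^ k) (z ^ j) P Q l f hκ hκK ⟨hnx, by positivity, by push_cast; exact hxn, hf1, hfd, hf0,
    hfc, hP, hQ, hfQ, hQP, hl, hκl, ?_, ?_⟩
  · calc 2 ≤ z := hz
      _ = z ^ 1 := (pow_one z).symm
      _ ≤ z ^ j := Nat.pow_le_pow_right (by omega) hj0
  · have h1 : (z ^ j) ^ l = z ^ R := by rw [← pow_mul, hj, mul_comm]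
    unfold Pool.Agent.K9h9.XR.EqX
    rw [h1]
    exact heq

end Pool.Agent.Results.MP_509488_nt.PolynomialProportion
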