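import Mathlib
import Pool.Agent.K9h9.AA.Final5
import Pool.Agent.K9h9.AA.T1
import Pool.Agent.K9h9.AA.T2

/-!
# The Fermat-Catalan equation of signature `(p, p, q)`: a positive proportion of all integers are not bases

Equation `x ^ p + y ^ p = z ^ q`, `p ≠ q` odd primes, `x`, `y`, `z` non-zero integers of any sign (so that
the repeated exponent may stand on both sides), `gcd (x, y) = 1`. A positive proportion of the
positive integers `n` are such that `n` is never `|z|`, and `n` is `|x|` or `|y|` only if `p ∣ z`. There is
no restriction on the exponents `p`, `q` and none on the two other bases, which may be much smaller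
or much larger than `n`.

Proof. For `n = |z|` this is known for almost all `n` (starting results `SumPowerSaving` and
`MP_2738db_nt/DifferenceBases`). Let `n = x` and `p ∤ z`, so `x + y = a ^ q`. We take the integers
`x = m ℓ` with a prime `ℓ ≥ m ^ 7` which is `2` modulo all odd primes `q < q₁`, and with `m ≥ x ^ (1/32)`
from a set of density at least `7/8`. For `q < q₁` we have `q ∤ ℓ (ℓ - 1)`, and the method of
`EqualExponentsLarge` (auxiliary polynomials in `z / a ^ p`, at the real place and modulo powers of
`ℓ`) excludes all `y` for large `x`. For `q ≥ q₁` and `|y| ≥ x ^ 8` the same method is used at the real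
place only. For `q ≥ q₁` and `|y| < x ^ 8` the number `m` has a divisor `D ≥ x ^ (1/K)` without prime
factors `1` modulo `q`, and this is so for all primes `q ≥ q₁` at the same time, for `7/8` of all `m`
(Brun-Titchmarsh for pairs of prime factors, Mertens for the smooth part); modulo `D` the bases
are `± a ^ q`, `± a ^ p`, and linear forms in two logarithms, `p`-adic for all prime factors of `D` at
the same time, give `D ^ q ≤ x ^ C`, a contradiction. The primes `ℓ` come from the prime number
theorem for arithmetic progressions.
-/

set_option autoImplicit false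

namespace Pool.Agent.Results.MP_509488_nt.PositiveProportion

/-- There are `c > 0` and `N₀` such that for all `N ≥ N₀` at least `c N` of the positive integers
`n ≤ N` have the following property: in every solution of `x ^ p + y ^ p = z ^ q` in odd primes `p ≠ q`
and non-zero integers `x`, `y`, `z`, `x` and `y` coprime, `n` is not `|z|`, and if `n` is `|x|` or `|y|`
then `p` divides `z`. -/
theorem result : ∃ c : ℝ, 0 < c ∧ ∃ N₀ : ℕ, ∀ N : ℕ, N₀ ≤ N →
    c * N ≤ (({n : ℕ | 0 < n ∧ n ≤ N ∧ ∀ (x y z : ℤ) (p q : ℕ), p.Prime → q.Prime → p ≠ 2 → q ≠ 2 →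
      p ≠ q → x ≠ 0 → y ≠ 0 → z ≠ 0 → IsCoprime x y → x ^ p + y ^ p = z ^ q →
      (n : ℤ) ≠ |z| ∧ (((n : ℤ) = |x| ∨ (n : ℤ) = |y|) → (p : ℤ) ∣ z)}.ncard : ℕ) : ℝ) :=
  Pool.Agent.K9h9.AA.free_main Pool.Agent.K9h9.AA.t1 Pool.Agent.K9h9.AA.t2

end Pool.Agent.Results.MP_509488_nt.PositiveProportion
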